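import Pool.Agent.T3H29.DG.Unit

/-! Residues at which `x ^ 2 + a` is coprime to the modulus, in intervals. -/

set_option autoImplicit false

open Finset Polynomial Filter

namespace Pool.Agent.T3H29.DI

open Pool.Agent.Y882.PX
open Pool.Agent.Y882.SI
open Pool.Agent.H475R2.BH
open Pool.Agent.T3H29.DG

/-- counting a periodic predicate in an interval -/
theorem cnt_per (p : ℕ → Prop) [DecidablePred p] (d : ℕ) (hd : 0 < d) (hp : Function.Periodic p d) (s l : ℕ) :
    |(((Ico s (s + l)).filter p).card : ℝ) - l * (d.count p : ℝ) / d| ≤ d.count p := by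
  have hdr : (0 : ℝ) < d := by exact_mod_cast hd
  have hblk : ∀ u s : ℕ, ((Ico s (s + u * d)).filter p).card = u * d.count p := by
    intro u
    induction u with
    | zero => intro s; simp
    | succ u ih =>
      intro s
      have h1 : Ico s (s + (u + 1) * d) = Ico s (s + u * d) ∪ Ico (s + u * d) (s + u * d + d) := by
        rw [Ico_union_Ico_eq_Ico (by omega) (by omega)]
        congr 1
        ring
      rw [h1, filter_union, card_union_of_disjoint, ih, Nat.filter_Ico_card_eq_of_periodic _ _ _ hp]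
      · ring
      · apply disjoint_filter_filter
        exact Ico_disjoint_Ico_consecutive _ _ _
  have h1 : Ico s (s + l) = Ico s (s + (l / d) * d) ∪ Ico (s + (l / d) * d) (s + l) := by
    rw [Ico_union_Ico_eq_Ico (by omega)]
    have := Nat.div_mul_le_self l d
    omega
  have h2 : ((Ico s (s + l)).filter p).card = l / d * d.count p +
      ((Ico (s + (l / d) * d) (s + l)).filter p).card := by
    rw [h1, filter_union, card_union_of_disjoint, hblk]
    apply disjoint_filter_filter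
    exact Ico_disjoint_Ico_consecutive _ _ _
  have h3 : ((Ico (s + (l / d) * d) (s + l)).filter p).card ≤ d.count p := by
    rw [← Nat.filter_Ico_card_eq_of_periodic (s + (l / d) * d) d p hp]
    apply card_le_card
    apply filter_subset_filter
    apply Ico_subset_Ico le_rfl
    have := Nat.lt_div_mul_add (a := l) hd
    omega
  have h4 : (l : ℝ) = (l / d : ℕ) * d + (l % d : ℕ) := by
    have := Nat.div_add_mod' l d
    exact_mod_cast this.symm
  have h5 : ((l % d : ℕ) : ℝ) ≤ d := by exact_mod_cast (Nat.mod_lt l hd).le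
  have h6 : l * (d.count p : ℝ) / d = (l / d : ℕ) * (d.count p : ℝ) + (l % d : ℕ) / d * (d.count p : ℝ) := by
    rw [h4]
    push_cast
    field_simp
  rw [h6, h2]
  push_cast
  have h7 : (0 : ℝ) ≤ (l % d : ℕ) / d * (d.count p : ℝ) := by positivity
  have h8 : (l % d : ℕ) / d * (d.count p : ℝ) ≤ 1 * (d.count p : ℝ) := by
    apply mul_le_mul_of_nonneg_right _ (Nat.cast_nonneg _)
    rw [div_le_one hdr]
    exact h5
  have h9 : (((Ico (s + (l / d) * d) (s + l)).filter p).card : ℝ) ≤ d.count p := by exact_mod_cast h3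
  have h10 : (0 : ℝ) ≤ (((Ico (s + (l / d) * d) (s + l)).filter p).card : ℝ) := Nat.cast_nonneg _
  rw [abs_le]
  constructor <;> linarith

theorem count_ro (a : ℤ) (d : ℕ) (hd : 0 < d) (s l : ℕ) :
    |(((Ico s (s + l)).filter (fun x : ℕ => d ∣ ((x : ℤ) ^ 2 + a).natAbs)).card : ℝ) -
      l * (ro (QF a) 0 d : ℝ) / d| ≤ ro (QF a) 0 d := by
  classical
  have hiff : ∀ x : ℕ, (d ∣ ((x : ℤ) ^ 2 + a).natAbs) ↔ (d : ℤ) ∣ (x : ℤ) ^ 2 + a := fun x =>
    (Int.natCast_dvd).symm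
  have hper : Function.Periodic (fun x : ℕ => d ∣ ((x : ℤ) ^ 2 + a).natAbs) d := by
    intro x
    simp only [hiff]
    rw [eq_iff_iff]
    have h1 : ((x + d : ℕ) : ℤ) ^ 2 + a = ((x : ℤ) ^ 2 + a) + d * (2 * x + d) := by push_cast; ring
    rw [h1]
    exact (Int.dvd_add_left (Dvd.intro _ rfl))
  have h1 : d.count (fun x : ℕ => d ∣ ((x : ℤ) ^ 2 + a).natAbs) = ro (QF a) 0 d := by
    rw [ro_eq, Nat.count_eq_card_filter_range]
    congr 1
    apply filter_congr
    intro x _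
    rw [hiff, QF_eval, add_zero]
  have h2 := cnt_per (fun x : ℕ => d ∣ ((x : ℤ) ^ 2 + a).natAbs) d hd hper s l
  rw [h1] at h2
  exact h2

theorem unit_geI (a : ℤ) (b : ℕ) (hb : 0 < b) (s l : ℕ) :
    (l : ℝ) / (3 : ℝ) ^ b.primeFactors.card - (3 : ℝ) ^ b.primeFactors.card ≤
      (((Ico s (s + l)).filter (fun x : ℕ => Nat.Coprime ((x : ℤ) ^ 2 + a).natAbs b)).card : ℝ) := by
  classical
  have hprime : ∀ p ∈ b.primeFactors, p.Prime := fun p hp => Nat.prime_of_mem_primeFactors hp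
  have h1 : ∀ x : ℕ, (if Nat.Coprime ((x : ℤ) ^ 2 + a).natAbs b then (1 : ℝ) else 0) =
      ∏ p ∈ b.primeFactors, (1 + -(if p ∣ ((x : ℤ) ^ 2 + a).natAbs then (1 : ℝ) else 0)) := by
    intro x
    split_ifs with h
    · symm
      apply prod_eq_one
      intro p hp
      have h2 : ¬ p ∣ ((x : ℤ) ^ 2 + a).natAbs := by
        intro h3
        have h4 : p ∣ 1 := by
          rw [← h]
          exact Nat.dvd_gcd h3 (Nat.dvd_of_mem_primeFactors hp)
        exact (hprime p hp).one_lt.ne' (Nat.dvd_one.1 h4)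
      rw [if_neg h2]
      norm_num
    · symm
      obtain ⟨p, hp, hp1, hp2⟩ := Nat.Prime.not_coprime_iff_dvd.1 h
      apply prod_eq_zero (Nat.mem_primeFactors.2 ⟨hp, hp2, hb.ne'⟩)
      rw [if_pos hp1]
      norm_num
  rw [card_filter]
  push_cast
  rw [sum_congr rfl (fun x _ => h1 x)]
  have h2 : ∀ x : ℕ, ∏ p ∈ b.primeFactors, (1 + -(if p ∣ ((x : ℤ) ^ 2 + a).natAbs then (1 : ℝ) else 0)) =
      ∑ T ∈ b.primeFactors.powerset, (-1) ^ T.card *
        (if (∏ p ∈ T, p) ∣ ((x : ℤ) ^ 2 + a).natAbs then (1 : ℝ) else 0) := by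
    intro x
    rw [prod_one_add]
    apply sum_congr rfl
    intro T hT
    rw [mem_powerset] at hT
    rw [← prod_ind T (fun p hp => hprime p (hT hp)), prod_neg]
  rw [sum_congr rfl (fun x _ => h2 x), sum_comm]
  have h3 : ∀ T ∈ b.primeFactors.powerset,
      l * ∏ p ∈ T, (-((ro (QF a) 0 p : ℝ) / p)) - ∏ p ∈ T, (ro (QF a) 0 p : ℝ) ≤
      ∑ x ∈ Ico s (s + l), (-1 : ℝ) ^ T.card *
        (if (∏ p ∈ T, p) ∣ ((x : ℤ) ^ 2 + a).natAbs then (1 : ℝ) else 0) := by
    intro T hT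
    rw [mem_powerset] at hT
    have hTp : ∀ p ∈ T, p.Prime := fun p hp => hprime p (hT hp)
    obtain ⟨d, hd⟩ : ∃ d, d = ∏ p ∈ T, p := ⟨_, rfl⟩
    have hd0 : 0 < d := by
      rw [hd]
      exact prod_pos fun p hp => (hTp p hp).pos
    rw [← mul_sum, ← hd]
    have h4 : ∑ x ∈ Ico s (s + l), (if d ∣ ((x : ℤ) ^ 2 + a).natAbs then (1 : ℝ) else 0) =
        (((Ico s (s + l)).filter (fun x : ℕ => d ∣ ((x : ℤ) ^ 2 + a).natAbs)).card : ℝ) := by
      rw [card_filter]
      push_cast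
      rfl
    have h5 : (∏ p ∈ T, (ro (QF a) 0 p : ℝ)) = ro (QF a) 0 d := by
      rw [hd, ro_prod (QF a) 0 T hTp]
      push_cast
      rfl
    have h6 : (∏ p ∈ T, (p : ℝ)) = d := by
      rw [hd]
      push_cast
      rfl
    have h7 := count_ro a d hd0 s l
    rw [h4, prod_neg, prod_div_distrib, h5, h6]
    set c : ℝ := (((Ico s (s + l)).filter (fun x : ℕ => d ∣ ((x : ℤ) ^ 2 + a).natAbs)).card : ℝ)
    have h8 : l * ((-1 : ℝ) ^ T.card * ((ro (QF a) 0 d : ℝ) / d)) = (-1 : ℝ) ^ T.card * (l * (ro (QF a) 0 d : ℝ) / d) := by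
      ring
    rw [h8]
    rcases neg_one_pow_eq_or ℝ T.card with h9 | h9
    · rw [h9]
      have := (abs_le.1 h7).1
      linarith
    · rw [h9]
      have := (abs_le.1 h7).2
      linarith
  refine le_trans ?_ (sum_le_sum h3)
  rw [sum_sub_distrib, ← mul_sum]
  have h4 := prod_one_add (f := fun p => (-((ro (QF a) 0 p : ℝ) / p))) (s := b.primeFactors)
  have h5 := prod_one_add (f := fun p => (ro (QF a) 0 p : ℝ)) (s := b.primeFactors)
  rw [← h4, ← h5]
  have hro : ∀ p ∈ b.primeFactors, (ro (QF a) 0 p : ℝ) / p ≤ 2 / 3 := by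
    intro p hp
    have hpp := Nat.prime_of_mem_primeFactors hp
    have hp0 : (0 : ℝ) < p := by exact_mod_cast hpp.pos
    rw [div_le_iff₀ hp0]
    by_cases h2 : p = 2
    · subst h2
      rw [ro_quad_two]
      norm_num
    · have h3 : 3 ≤ p := by
        have := hpp.two_le
        omega
      have h4 : (3 : ℝ) ≤ p := by exact_mod_cast h3
      have h5 : (ro (QF a) 0 p : ℝ) ≤ 2 := by exact_mod_cast ro_quad_le a p hpp
      linarith
  have h6 : (1 / 3 : ℝ) ^ b.primeFactors.card ≤ ∏ p ∈ b.primeFactors, (1 + -((ro (QF a) 0 p : ℝ) / p)) := by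
    rw [← prod_const]
    apply Finset.prod_le_prod
    · intro p _
      norm_num
    · intro p hp
      have := hro p hp
      linarith
  have h7 : ∏ p ∈ b.primeFactors, (1 + (ro (QF a) 0 p : ℝ)) ≤ (3 : ℝ) ^ b.primeFactors.card := by
    rw [← prod_const]
    apply Finset.prod_le_prod
    · intro p _
      positivity
    · intro p hp
      have hpp := Nat.prime_of_mem_primeFactors hp
      have h5 : (ro (QF a) 0 p : ℝ) ≤ 2 := by exact_mod_cast ro_quad_le a p hpp
      linarith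
  have h8 : (l : ℝ) / (3 : ℝ) ^ b.primeFactors.card = l * (1 / 3 : ℝ) ^ b.primeFactors.card := by
    rw [one_div, inv_pow]
    rfl
  rw [h8]
  have h9 := mul_le_mul_of_nonneg_left h6 (Nat.cast_nonneg l : (0 : ℝ) ≤ l)
  linarith

/-- for large `b`, a set which contains all but `b ^ μ` of the integers of an interval of length `b ^ α` contains
one at which the value is coprime to the modulus -/
theorem unit_exI (a : ℤ) (μ α : ℝ) (hμ0 : 0 ≤ μ) (hμ : μ < α) : ∃ b0 : ℕ, ∀ b : ℕ, b0 ≤ b → ∀ (s l : ℕ) (D : Finset ℕ),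
    (b : ℝ) ^ α ≤ l → ((Ico s (s + l) \ D).card : ℝ) ≤ (b : ℝ) ^ μ →
    ∃ x ∈ D, x ∈ Ico s (s + l) ∧ Nat.Coprime ((x : ℤ) ^ 2 + a).natAbs b := by
  have hε : 0 < (α - μ) / 3 := by linarith
  obtain ⟨C, hC1, hC⟩ := pow_card_le 3 ((α - μ) / 3) hε
  have ev : ∀ᶠ b : ℕ in atTop, 2 * C ^ 2 + 1 ≤ (b : ℝ) ^ ((α - μ) / 3) :=
    ((tendsto_rpow_atTop hε).comp tendsto_natCast_atTop_atTop).eventually_ge_atTop _
  obtain ⟨b1, hb1⟩ := eventually_atTop.1 (ev.and (eventually_ge_atTop 1))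
  refine ⟨b1, fun b hb s l D hl hD => ?_⟩
  obtain ⟨e1, e2⟩ := hb1 b hb
  have hbr : (0 : ℝ) < b := by exact_mod_cast e2
  have hbr1 : (1 : ℝ) ≤ b := by exact_mod_cast e2
  by_contra hcon
  push Not at hcon
  have h1 : (Ico s (s + l)).filter (fun x : ℕ => Nat.Coprime ((x : ℤ) ^ 2 + a).natAbs b) ⊆ Ico s (s + l) \ D := by
    intro x hx
    rw [mem_filter] at hx
    rw [Finset.mem_sdiff]
    exact ⟨hx.1, fun h => hcon x h hx.1 hx.2⟩
  have h2 : (((Ico s (s + l)).filter (fun x : ℕ => Nat.Coprime ((x : ℤ) ^ 2 + a).natAbs b)).card : ℝ) ≤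
      (b : ℝ) ^ μ := le_trans (by exact_mod_cast card_le_card h1) hD
  have h3 := unit_geI a b e2 s l
  have h4 := hC b.primeFactors (fun p hp => Nat.prime_of_mem_primeFactors hp)
  have h5 : ((∏ p ∈ b.primeFactors, p : ℕ) : ℝ) ^ ((α - μ) / 3) ≤ (b : ℝ) ^ ((α - μ) / 3) := by
    apply Real.rpow_le_rpow (Nat.cast_nonneg _) _ hε.le
    exact_mod_cast Nat.le_of_dvd (by omega) (Nat.prod_primeFactors_dvd b)
  set B : ℝ := (b : ℝ) ^ ((α - μ) / 3) with hB
  have hB0 : 0 < B := by positivity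
  have h6 : (3 : ℝ) ^ b.primeFactors.card ≤ C * B := by
    refine le_trans ?_ (mul_le_mul_of_nonneg_left h5 (by linarith))
    exact_mod_cast h4
  set W : ℝ := (3 : ℝ) ^ b.primeFactors.card with hW
  have hW0 : 0 < W := by positivity
  have hW1 : 1 ≤ W := one_le_pow₀ (by norm_num)
  have h7 : (l : ℝ) ≤ W * ((b : ℝ) ^ μ + W) := by
    have h8 : (l : ℝ) / W ≤ (b : ℝ) ^ μ + W := by linarith
    rw [div_le_iff₀ hW0] at h8
    linarith
  have hbμ : 1 ≤ (b : ℝ) ^ μ := Real.one_le_rpow hbr1 hμ0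
  have h8 : (b : ℝ) ^ α = B ^ 3 * (b : ℝ) ^ μ := by
    rw [hB, ← Real.rpow_natCast, ← Real.rpow_mul hbr.le, ← Real.rpow_add hbr]
    congr 1
    push_cast
    ring
  have hCB : 1 ≤ C * B := hW1.trans h6
  have h9 : B ^ 3 * (b : ℝ) ^ μ ≤ 2 * (C * B) ^ 2 * (b : ℝ) ^ μ := by
    calc B ^ 3 * (b : ℝ) ^ μ ≤ l := by rw [← h8]; exact hl
      _ ≤ W * ((b : ℝ) ^ μ + W) := h7
      _ ≤ (C * B) * ((b : ℝ) ^ μ + C * B) := by gcongr
      _ ≤ (C * B) * ((C * B) * (b : ℝ) ^ μ + (C * B) * (b : ℝ) ^ μ) := by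
          apply mul_le_mul_of_nonneg_left _ (by linarith)
          apply add_le_add
          · nlinarith
          · nlinarith
      _ = _ := by ring
  have h10 : B ^ 3 ≤ 2 * (C * B) ^ 2 := le_of_mul_le_mul_right h9 (by linarith)
  have h11 : B ≤ 2 * C ^ 2 := by
    have h12 : B ^ 2 * B ≤ B ^ 2 * (2 * C ^ 2) := by
      calc B ^ 2 * B = B ^ 3 := by ring
        _ ≤ 2 * (C * B) ^ 2 := h10
        _ = _ := by ring
    exact le_of_mul_le_mul_left h12 (by positivity)
  linarith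

end Pool.Agent.T3H29.DI
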