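import Pool.Agent.T3H29.DI.MainI
import Pool.Agent.T3H29.DI.UnitI

/-! Almost prime values of `n ^ 2 + a` with `n` an integer with restricted digits: digits in intervals, assembly. -/

set_option autoImplicit false

open Finset Polynomial Filter

namespace Pool.Agent.T3H29.DI

open Pool.Agent.T3H29.DG
open Pool.Agent.Y882.KW

/-- `D` contains all but at most `b ^ μ` of the digits of an interval of at least `b ^ α` digits -/
def IntB (b : ℕ) (α μ : ℝ) (D : Finset ℕ) : Prop :=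
  ∃ s l : ℕ, (b : ℝ) ^ α ≤ l ∧ s + l ≤ b ∧ D ⊆ Ico s (s + l) ∧ ((Ico s (s + l) \ D).card : ℝ) ≤ (b : ℝ) ^ μ

theorem IntB.subset {b : ℕ} {α μ : ℝ} {D : Finset ℕ} (h : IntB b α μ D) : D ⊆ range b := by
  obtain ⟨s, l, _, h2, h3, _⟩ := h
  intro x hx
  have := mem_Ico.1 (h3 hx)
  rw [mem_range]
  omega

theorem IntB.toD {b : ℕ} {α μ : ℝ} {D : Finset ℕ} (h : IntB b α μ D) :
    IntD b ⌈(b : ℝ) ^ α⌉₊ ⌊(b : ℝ) ^ μ⌋₊ D := by
  obtain ⟨s, l, h1, h2, h3, h4⟩ := h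
  exact ⟨s, l, Nat.ceil_le.2 h1, h2, h3, Nat.le_floor h4⟩

theorem ev_baseI (μ α α' η : ℝ) (hμ0 : 0 < μ) (hα1 : α ≤ 1) (hμα : μ < α) (hα' : α' < α)
    (hη : 1 - α + μ < η) : ∃ b0 : ℕ, ∀ b : ℕ, b0 ≤ b →
    2 * ⌊(b : ℝ) ^ μ⌋₊ + 2 ≤ ⌈(b : ℝ) ^ α⌉₊ ∧ ⌈(b : ℝ) ^ α⌉₊ ≤ b ∧
      (b : ℝ) ^ α' + ⌊(b : ℝ) ^ μ⌋₊ ≤ ⌈(b : ℝ) ^ α⌉₊ ∧
      ∑ t ∈ range b, gi b ⌈(b : ℝ) ^ α⌉₊ ⌊(b : ℝ) ^ μ⌋₊ t ≤ (b : ℝ) ^ η := by
  have ev1 : ∀ᶠ b : ℕ in atTop, (4 : ℝ) ≤ (b : ℝ) ^ (α - μ) :=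
    ((tendsto_rpow_atTop (by linarith)).comp tendsto_natCast_atTop_atTop).eventually_ge_atTop _
  have ev2 : ∀ᶠ b : ℕ in atTop, (6 : ℝ) ≤ (b : ℝ) ^ μ :=
    ((tendsto_rpow_atTop hμ0).comp tendsto_natCast_atTop_atTop).eventually_ge_atTop _
  have ev3 := ev_log 2 μ hμ0
  have ev4 : ∀ᶠ b : ℕ in atTop, (2 : ℝ) ≤ (b : ℝ) ^ (α - α') :=
    ((tendsto_rpow_atTop (by linarith)).comp tendsto_natCast_atTop_atTop).eventually_ge_atTop _
  have ev5 : ∀ᶠ b : ℕ in atTop, (8 : ℝ) ≤ (b : ℝ) ^ (η - (1 - α + μ)) :=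
    ((tendsto_rpow_atTop (by linarith)).comp tendsto_natCast_atTop_atTop).eventually_ge_atTop _
  obtain ⟨b1, hb1⟩ := eventually_atTop.1 (ev1.and (ev2.and (ev3.and (ev4.and (ev5.and (eventually_ge_atTop 1))))))
  refine ⟨b1, fun b hb => ?_⟩
  obtain ⟨e1, e2, e3, e4, e5, e6⟩ := hb1 b hb
  have hbr : (1 : ℝ) ≤ b := by exact_mod_cast e6
  have hb0 : (0 : ℝ) < b := by linarith
  set m := ⌊(b : ℝ) ^ μ⌋₊ with hm
  set L := ⌈(b : ℝ) ^ α⌉₊ with hL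
  have hmr : (m : ℝ) ≤ (b : ℝ) ^ μ := Nat.floor_le (by positivity)
  have hLr : (b : ℝ) ^ α ≤ L := Nat.le_ceil _
  have hA : 4 * (b : ℝ) ^ μ ≤ (b : ℝ) ^ α := by
    calc 4 * (b : ℝ) ^ μ ≤ (b : ℝ) ^ (α - μ) * (b : ℝ) ^ μ :=
          mul_le_mul_of_nonneg_right e1 (by positivity)
      _ = _ := by
          rw [← Real.rpow_add hb0]
          congr 1
          ring
  have hB : 2 * (b : ℝ) ^ α' ≤ (b : ℝ) ^ α := by
    calc 2 * (b : ℝ) ^ α' ≤ (b : ℝ) ^ (α - α') * (b : ℝ) ^ α' :=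
          mul_le_mul_of_nonneg_right e4 (by positivity)
      _ = _ := by
          rw [← Real.rpow_add hb0]
          congr 1
          ring
  have h1 : 2 * m + 2 ≤ L := by
    have : (2 : ℝ) * m + 2 ≤ L := by linarith
    exact_mod_cast this
  have h2 : L ≤ b := by
    rw [hL, Nat.ceil_le]
    calc (b : ℝ) ^ α ≤ (b : ℝ) ^ (1 : ℝ) := Real.rpow_le_rpow_of_exponent_le hbr hα1
      _ = b := Real.rpow_one _
  refine ⟨h1, h2, by linarith, ?_⟩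
  refine (sum_gi b L m (by omega) h2 (by omega)).trans ?_
  have hpos : 0 < (b : ℝ) ^ α := by positivity
  have h3 : b / ((L : ℝ) - m) ≤ 2 * (b : ℝ) ^ (1 - α) := by
    rw [div_le_iff₀ (by linarith)]
    have h4 : (b : ℝ) ^ (1 - α) * (b : ℝ) ^ α = b := by
      rw [← Real.rpow_add hb0]
      have : 1 - α + α = 1 := by ring
      rw [this, Real.rpow_one]
    have h5 : (b : ℝ) ^ α / 2 ≤ (L : ℝ) - m := by linarith
    calc (b : ℝ) = 2 * (b : ℝ) ^ (1 - α) * ((b : ℝ) ^ α / 2) := by linarith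
      _ ≤ _ := mul_le_mul_of_nonneg_left h5 (by positivity)
  have h4 : 2 * (m + 2 + Real.log b) + 2 ≤ 4 * (b : ℝ) ^ μ := by linarith
  have hlog : 0 ≤ Real.log b := Real.log_nonneg hbr
  have hm0 : (0 : ℝ) ≤ m := Nat.cast_nonneg _
  calc b / ((L : ℝ) - m) * (2 * (m + 2 + Real.log b) + 2) ≤ (2 * (b : ℝ) ^ (1 - α)) * (4 * (b : ℝ) ^ μ) :=
        mul_le_mul h3 h4 (by positivity) (by positivity)
    _ = 8 * ((b : ℝ) ^ (1 - α) * (b : ℝ) ^ μ) := by ring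
    _ = 8 * (b : ℝ) ^ (1 - α + μ) := by rw [← Real.rpow_add hb0]
    _ ≤ (b : ℝ) ^ (η - (1 - α + μ)) * (b : ℝ) ^ (1 - α + μ) := mul_le_mul_of_nonneg_right e5 (by positivity)
    _ = _ := by
        rw [← Real.rpow_add hb0]
        congr 1
        ring

open Classical in
theorem finI (a : ℤ) (ha : ¬ IsSquare (-a)) (r : ℕ) (τ ζ υ lam S : ℝ) (hζ : 0 < ζ) (h2 : 2 * ζ < τ)
    (h4 : τ ≤ 4 * ζ) (hτ : τ < 1) (hζυ : ζ ≤ υ) (hυτ : υ < τ)
    (hlam : 0 < lam)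
    (hJ0 : ∫ x in ζ..υ, (lam - lam / υ * x) / (τ - x) / x < Real.log (τ / ζ - 1) / τ) (hS : 2 < S)
    (hr : 1 / lam + S / υ ≤ r + 1) (α μ : ℝ) (hμ0 : 0 < μ) (hα1 : α ≤ 1) (hαμ : 1 / 2 < α - μ) (hτα : τ < α - μ) :
    ∃ b0 : ℕ, ∀ b : ℕ, b0 ≤ b → ∃ δ : ℝ, 0 < δ ∧ ∃ k0 : ℕ, ∀ k : ℕ, k0 ≤ k → ∀ D : ℕ → Finset ℕ,
      (∀ i < k, IntB b α μ (D i)) →
      δ * (SD b D k).card / k ≤ ((good a r (((b : ℝ) ^ k) ^ ζ) (SD b D k)).card : ℝ) := by
  obtain ⟨η, hμη, hη1, hη2⟩ : ∃ η : ℝ, 1 - α + μ < η ∧ η < 1 / 2 ∧ η < 1 - τ := by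
    refine ⟨((1 - α + μ) + min (1 / 2) (1 - τ)) / 2, ?_, ?_, ?_⟩
    · have : 1 - α + μ < min (1 / 2) (1 - τ) := lt_min (by linarith) (by linarith)
      linarith
    · have := min_le_left (1 / 2) (1 - τ)
      linarith
    · have := min_le_right (1 / 2) (1 - τ)
      linarith
  obtain ⟨α', hα'1, hα'2, hα'3⟩ : ∃ α' : ℝ, 1 / 2 < α' ∧ υ < α' ∧ α' < α := by
    refine ⟨(max (1 / 2) υ + α) / 2, ?_, ?_, ?_⟩
    · have := le_max_left (1 / 2) υ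
      linarith
    · have := le_max_right (1 / 2) υ
      linarith
    · have : max (1 / 2) υ < α := max_lt (by linarith) (by linarith)
      linarith
  obtain ⟨b1, hb1⟩ := ev_baseI μ α α' η hμ0 hα1 (by linarith) hα'3 hμη
  obtain ⟨b2, hb2⟩ := unit_exI a μ α hμ0.le (by linarith)
  refine ⟨max b1 (max b2 1), fun b hb => ?_⟩
  obtain ⟨g1, g1', g1'', g2⟩ := hb1 b ((le_max_left _ _).trans hb)
  have g3 := hb2 b (((le_max_left _ _).trans (le_max_right _ _)).trans hb)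
  have g6 : 1 ≤ b := (((le_max_right _ _).trans (le_max_right _ _)).trans hb)
  have hb0 : (0 : ℝ) < b := by exact_mod_cast g6
  set m := ⌊(b : ℝ) ^ μ⌋₊ with hm
  set L := ⌈(b : ℝ) ^ α⌉₊ with hL
  obtain ⟨δ, hδ, k0, HK⟩ := restrI a ha r τ ζ υ lam S hζ h2 h4 hτ hζυ hυτ hlam hJ0 hS hr η
    (by linarith) hη1 (by linarith) b L m g1 g1' α' (α' - 1 / 2) (by linarith) (by ring) (by linarith) hα'2
    g1'' g2
  refine ⟨δ / b, by positivity, max k0 1, fun k hk D hD => ?_⟩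
  have hk1 : 1 ≤ k := (le_max_right _ _).trans hk
  have hkr : (0 : ℝ) < k := by exact_mod_cast hk1
  obtain ⟨x, hxD, hxb, hx⟩ : ∃ x ∈ D 0, x < b ∧ Nat.Coprime ((x : ℤ) ^ 2 + a).natAbs b := by
    obtain ⟨s, l, u1, u2, u3, u4⟩ := hD 0 (by omega)
    obtain ⟨x, v1, v2, v3⟩ := g3 s l (D 0) u1 u4
    have := mem_Ico.1 v2
    exact ⟨x, v1, by omega, v3⟩
  set D' : ℕ → Finset ℕ := fun i => if i = 0 then {x} else D i with hD'
  have hD'0 : D' 0 = {x} := by simp [hD']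
  have hD'1 : ∀ i, 1 ≤ i → D' i = D i := by
    intro i hi
    simp only [hD']
    rw [if_neg (by omega)]
  have hD's : ∀ i < k, D' i ⊆ range b := by
    intro i hi
    rcases Nat.eq_zero_or_pos i with h | h
    · rw [h, hD'0]
      intro y hy
      rw [mem_singleton] at hy
      rw [mem_range, hy]
      exact hxb
    · rw [hD'1 i h]
      exact (hD i hi).subset
  have hD'm : ∀ i < k, 1 ≤ i → IntD b L m (D' i) := by
    intro i hi h
    rw [hD'1 i h]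
    exact (hD i hi).toD
  have hmain := HK k ((le_max_left _ _).trans hk) D' hD's hD'm x hD'0 hx
  have hsub : SD b D' k ⊆ SD b D k := by
    unfold SD
    intro n hn
    rw [mem_filter] at hn ⊢
    refine ⟨hn.1, fun i hi => ?_⟩
    rcases Nat.eq_zero_or_pos i with h | h
    · have := hn.2 0 (by omega)
      rw [hD'0, mem_singleton] at this
      rw [h, this]
      exact hxD
    · rw [← hD'1 i h]
      exact hn.2 i hi
  have hcard : ((SD b D k).card : ℝ) ≤ b * (SD b D' k).card := by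
    rw [card_SD b (by omega) D k (fun i hi => (hD i hi).subset), card_SD b (by omega) D' k hD's]
    obtain ⟨l, rfl⟩ : ∃ l, k = l + 1 := ⟨k - 1, by omega⟩
    rw [prod_range_succ', prod_range_succ']
    have h5 : ∏ i ∈ range l, (D' (i + 1)).card = ∏ i ∈ range l, (D (i + 1)).card := by
      apply prod_congr rfl
      intro i _
      rw [hD'1 (i + 1) (by omega)]
    have h6 : (D 0).card ≤ b := by
      have := card_le_card (hD 0 (by omega)).subset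
      rwa [card_range] at this
    rw [h5, hD'0, card_singleton, mul_one]
    have h7 : (∏ i ∈ range l, (D (i + 1)).card) * (D 0).card ≤ b * ∏ i ∈ range l, (D (i + 1)).card := by
      rw [mul_comm]
      exact Nat.mul_le_mul_right _ h6
    exact_mod_cast h7
  have hgood : ((good a r (((b : ℝ) ^ k) ^ ζ) (SD b D' k)).card : ℝ) ≤
      ((good a r (((b : ℝ) ^ k) ^ ζ) (SD b D k)).card : ℝ) := by
    have : good a r (((b : ℝ) ^ k) ^ ζ) (SD b D' k) ⊆ good a r (((b : ℝ) ^ k) ^ ζ) (SD b D k) := by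
      unfold good
      exact filter_subset_filter _ hsub
    exact_mod_cast card_le_card this
  calc δ / b * (SD b D k).card / k ≤ δ / b * (b * (SD b D' k).card) / k := by
        gcongr
    _ = δ * (SD b D' k).card / k := by field_simp
    _ ≤ _ := hmain.trans hgood

end Pool.Agent.T3H29.DI
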