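import Pool.Agent.T3H29.DI.FinI

/-! Prescribed digits. -/

set_option autoImplicit false

open Finset Polynomial Filter

namespace Pool.Agent.T3H29.DI

open Pool.Agent.T3H29.DG

/-- the blocks: the numbers below `g ^ j` with prescribed digits at the places `s ≥ h` -/
def blk (g j h : ℕ) (c : ℕ → ℕ) (i : ℕ) : Finset ℕ :=
  (range (g ^ j)).filter (fun d : ℕ => ∀ s < j, h ≤ s → d / g ^ s % g = c (i * j + s))

theorem blk_eq (g j h : ℕ) (hg : 2 ≤ g) (hh : h ≤ j) (c : ℕ → ℕ) (hc : ∀ l, c l < g) (i : ℕ) :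
    ∃ C : ℕ, C * g ^ h + g ^ h ≤ g ^ j ∧ blk g j h c i = Ico (C * g ^ h) (C * g ^ h + g ^ h) := by
  have hg0 : 0 < g := by omega
  have hgh : 0 < g ^ h := Nat.pow_pos hg0
  have hcard : (SD g (fun u => {c (i * j + (h + u))}) (j - h)).card = 1 := by
    rw [card_SD g hg0 _ _ (fun u _ => by
      intro x hx
      rw [mem_singleton] at hx
      rw [mem_range, hx]
      exact hc _)]
    simp
  obtain ⟨C, hC⟩ := card_eq_one.1 hcard
  have hmem : ∀ x, x ∈ SD g (fun u => {c (i * j + (h + u))}) (j - h) ↔ x = C := by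
    intro x
    rw [hC, mem_singleton]
  have hCb : C < g ^ (j - h) := by
    have := (hmem C).2 rfl
    unfold SD at this
    rw [mem_filter, mem_range] at this
    exact this.1
  have hpow : g ^ j = g ^ (j - h) * g ^ h := by
    rw [← pow_add]
    congr 1
    omega
  have hend : C * g ^ h + g ^ h ≤ g ^ j := by
    rw [hpow]
    calc C * g ^ h + g ^ h = (C + 1) * g ^ h := by ring
      _ ≤ _ := Nat.mul_le_mul_right _ hCb
  refine ⟨C, hend, ?_⟩
  ext d
  have hdiv : d / g ^ h = C ↔ d ∈ Ico (C * g ^ h) (C * g ^ h + g ^ h) := by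
    rw [mem_Ico]
    constructor
    · intro hd
      have h1 := Nat.div_add_mod d (g ^ h)
      have h2 := Nat.mod_lt d hgh
      rw [hd] at h1
      rw [mul_comm] at h1
      generalize d % g ^ h = v at h1 h2
      constructor <;> omega
    · rintro ⟨h1, h2⟩
      apply Nat.div_eq_of_lt_le h1
      rw [add_mul, one_mul]
      exact h2
  rw [← hdiv]
  unfold blk
  rw [mem_filter, mem_range]
  constructor
  · rintro ⟨h1, h2⟩
    rw [← hmem]
    unfold SD
    rw [mem_filter, mem_range]
    constructor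
    · apply Nat.div_lt_of_lt_mul
      rw [mul_comm, ← hpow]
      exact h1
    · intro u hu
      rw [mem_singleton, Nat.div_div_eq_div_mul, ← pow_add]
      exact h2 (h + u) (by omega) (by omega)
  · intro hd
    have h1 : d ∈ Ico (C * g ^ h) (C * g ^ h + g ^ h) := hdiv.1 hd
    rw [mem_Ico] at h1
    refine ⟨by omega, fun s hs hhs => ?_⟩
    have h2 := (hmem C).2 rfl
    unfold SD at h2
    rw [mem_filter] at h2
    have h3 := h2.2 (s - h) (by omega)
    rw [mem_singleton, ← hd, Nat.div_div_eq_div_mul, ← pow_add] at h3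
    have h4 : h + (s - h) = s := by omega
    rw [h4] at h3
    exact h3

/-- the integers below `g ^ (j k)` whose digits in base `g` at the places `l` with `h ≤ l % j` are prescribed -/
theorem presc_eq (g j h k : ℕ) (hg : 2 ≤ g) (hj : 0 < j) (c : ℕ → ℕ) :
    (range (g ^ (j * k))).filter (fun n : ℕ => ∀ l < j * k, h ≤ l % j → n / g ^ l % g = c l) =
      SD (g ^ j) (fun i => blk g j h c i) k := by
  have hg0 : 0 < g := by omega
  unfold SD blk
  ext n
  rw [mem_filter, mem_filter, mem_range, mem_range, pow_mul]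
  have key : ∀ i s : ℕ, s < j → n / (g ^ j) ^ i % g ^ j / g ^ s % g = n / g ^ (i * j + s) % g := by
    intro i s hs
    have e1 : g ^ j = g ^ s * g ^ (j - s) := by
      rw [← pow_add]
      congr 1
      omega
    have e2 : n / (g ^ j) ^ i % g ^ j / g ^ s = n / (g ^ j) ^ i / g ^ s % g ^ (j - s) := by
      generalize n / (g ^ j) ^ i = N
      rw [e1, Nat.mod_mul_right_div_self]
    rw [e2]
    have e3 : n / (g ^ j) ^ i / g ^ s = n / g ^ (i * j + s) := by
      rw [Nat.div_div_eq_div_mul, ← pow_mul, ← pow_add]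
      congr 2
      ring
    rw [e3]
    apply Nat.mod_mod_of_dvd
    exact dvd_pow_self g (by omega)
  constructor
  · rintro ⟨h1, h2⟩
    refine ⟨h1, fun i hi => ?_⟩
    rw [mem_filter, mem_range]
    refine ⟨Nat.mod_lt _ (Nat.pow_pos hg0), fun s hs hhs => ?_⟩
    rw [key i s hs]
    have e4 : (i * j + s) % j = s := by
      rw [mul_comm, Nat.mul_add_mod, Nat.mod_eq_of_lt hs]
    apply h2 (i * j + s)
    · calc i * j + s < i * j + j := by omega
        _ = (i + 1) * j := by ring
        _ ≤ k * j := Nat.mul_le_mul_right _ hi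
        _ = j * k := mul_comm _ _
    · rw [e4]
      exact hhs
  · rintro ⟨h1, h2⟩
    refine ⟨h1, fun l hl hhl => ?_⟩
    have hi : l / j < k := Nat.div_lt_of_lt_mul hl
    have hs : l % j < j := Nat.mod_lt _ hj
    have h3 := h2 (l / j) hi
    rw [mem_filter] at h3
    have h4 := h3.2 (l % j) hs hhl
    rw [key (l / j) (l % j) hs] at h4
    have e5 : l / j * j + l % j = l := Nat.div_add_mod' l j
    rw [e5] at h4
    exact h4

theorem blk_int (g j h : ℕ) (hg : 2 ≤ g) (hh : h ≤ j) (c : ℕ → ℕ) (hc : ∀ l, c l < g) (i : ℕ) (α μ : ℝ)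
    (hαh : α * j ≤ h) : IntB (g ^ j) α μ (blk g j h c i) := by
  obtain ⟨C, hC1, hC2⟩ := blk_eq g j h hg hh c hc i
  have hgr : (1 : ℝ) ≤ g := by exact_mod_cast (by omega : 1 ≤ g)
  refine ⟨C * g ^ h, g ^ h, ?_, hC1, by rw [hC2], ?_⟩
  · push_cast
    rw [← Real.rpow_natCast, ← Real.rpow_natCast, ← Real.rpow_mul (by linarith)]
    apply Real.rpow_le_rpow_of_exponent_le hgr
    rw [mul_comm]
    exact hαh
  · rw [hC2, Finset.sdiff_self, card_empty, Nat.cast_zero]
    positivity

theorem presc_card (g j h k : ℕ) (hg : 2 ≤ g) (hh : h ≤ j) (c : ℕ → ℕ) (hc : ∀ l, c l < g) :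
    (SD (g ^ j) (fun i => blk g j h c i) k).card = g ^ (h * k) := by
  rw [card_SD (g ^ j) (Nat.pow_pos (by omega)) (fun i => blk g j h c i) k (by
    intro i _
    show blk g j h c i ⊆ range (g ^ j)
    unfold blk
    exact filter_subset _ _)]
  have h1 : ∀ i ∈ range k, (blk g j h c i).card = g ^ h := by
    intro i _
    obtain ⟨C, _, hC2⟩ := blk_eq g j h hg hh c hc i
    rw [hC2, Nat.card_Ico]
    omega
  rw [prod_congr rfl h1, prod_const, card_range, pow_mul]

end Pool.Agent.T3H29.DI
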