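import Pool.Agent.T3H29.DI.LargeI

/-! Small denominators, and the exponential sums over the digits in an interval. -/

set_option autoImplicit false

open Finset

namespace Pool.Agent.T3H29.DI

open Pool.Agent.T3H29.DG

/-- **Small denominators.** -/
theorem TT_smallI (b : ℕ) (D : ℕ → Finset ℕ) (k : ℕ) (hb2 : 2 ≤ b) (hD : ∀ i < k, D i ⊆ range b)
    (hc : ∀ i < k, 1 ≤ i → ∃ t, t ∈ D i ∧ t + 1 ∈ D i) (e h w : ℕ) (he : 1 < e)
    (hbe : Nat.Coprime e b) (hhe : Nat.Coprime h e) (hw : e ≤ b ^ w) (Q : ℕ) (hQ : 1 + Q * w ≤ k) :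
    TT b D k ((h : ℝ) / e) ≤ (1 - 1 / (b : ℝ) ^ 3) ^ Q := by
  have hb0 : (2 : ℝ) ≤ b := by exact_mod_cast hb2
  set F : ℕ → ℝ := fun i => ff (D i) ((b : ℝ) ^ i * ((h : ℝ) / e)) with hF
  apply prod_windows F (fun i => ff_nonneg _ _) (fun i => ff_le_one _ _) w _ _ k _ Q hQ
  · have : 1 / (b : ℝ) ^ 3 ≤ 1 := by
      rw [div_le_one (by positivity)]
      exact one_le_pow₀ (by linarith)
    linarith
  · intro j hj hjk
    obtain ⟨i, hi, n, x, hx, hx1, hx2⟩ := window b e h w hb2 he hbe hhe hw j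
    refine ⟨i, hi, ?_⟩
    simp only [hF]
    rw [hx, ff_add_int]
    obtain ⟨t, ht, ht1⟩ := hc (j + i) (by omega) (by omega)
    exact ff_small b (D (j + i)) (hD _ (by omega)) t ht ht1 hb2 x hx1 hx2

theorem TS_smallI (b : ℕ) (D : ℕ → Finset ℕ) (k : ℕ) (hb2 : 2 ≤ b) (hD : ∀ i < k, D i ⊆ range b)
    (hc : ∀ i < k, 1 ≤ i → ∃ t, t ∈ D i ∧ t + 1 ∈ D i) (e w : ℕ) (he : 1 < e)
    (hbe : Nat.Coprime e b) (hw : e ≤ b ^ w) (Q : ℕ) (hQ : 1 + Q * w ≤ k) :
    TS b D k e ≤ e * (1 - 1 / (b : ℝ) ^ 3) ^ Q := by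
  unfold TS
  have hb0 : (2 : ℝ) ≤ b := by exact_mod_cast (by omega : 2 ≤ b)
  have h0 : (0 : ℝ) ≤ 1 - 1 / (b : ℝ) ^ 3 := by
    have : 1 / (b : ℝ) ^ 3 ≤ 1 := by
      rw [div_le_one (by positivity)]
      exact one_le_pow₀ (by linarith)
    linarith
  calc ∑ h ∈ (range e).filter (fun h => Nat.Coprime h e), TT b D k ((h : ℝ) / e) ≤
      ∑ h ∈ (range e).filter (fun h => Nat.Coprime h e), (1 - 1 / (b : ℝ) ^ 3) ^ Q := by
        apply sum_le_sum
        intro h hh
        rw [mem_filter] at hh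
        exact TT_smallI b D k hb2 hD hc e h w he hbe hh.2 hw Q hQ
    _ = (((range e).filter (fun h => Nat.Coprime h e)).card : ℝ) * (1 - 1 / (b : ℝ) ^ 3) ^ Q := by
        rw [sum_const, nsmul_eq_mul]
    _ ≤ _ := by
        apply mul_le_mul_of_nonneg_right _ (by positivity)
        have := card_filter_le (range e) (fun h => Nat.Coprime h e)
        rw [card_range] at this
        exact_mod_cast this

/-- `D` contains all but at most `m` of the digits of an interval of at least `L` digits -/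
def IntD (b L m : ℕ) (D : Finset ℕ) : Prop :=
  ∃ s l : ℕ, L ≤ l ∧ s + l ≤ b ∧ D ⊆ Ico s (s + l) ∧ (Ico s (s + l) \ D).card ≤ m

theorem IntD.subset {b L m : ℕ} {D : Finset ℕ} (h : IntD b L m D) : D ⊆ range b := by
  obtain ⟨s, l, _, h2, h3, _⟩ := h
  intro x hx
  have := mem_Ico.1 (h3 hx)
  rw [mem_range]
  omega

theorem IntD.card {b L m : ℕ} {D : Finset ℕ} (h : IntD b L m D) : L ≤ D.card + m := by
  obtain ⟨s, l, h1, h2, h3, h4⟩ := h
  have := card_sdiff_add_card_eq_card h3
  rw [Nat.card_Ico] at this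
  omega

theorem IntD.consec {b L m : ℕ} {D : Finset ℕ} (h : IntD b L m D) (hmL : 2 * m + 2 ≤ L) :
    ∃ t, t ∈ D ∧ t + 1 ∈ D := by
  obtain ⟨s, l, h1, h2, h3, h4⟩ := h
  by_contra hcon
  push Not at hcon
  have e1 : ∀ j ∈ range (m + 1), (if s + 2 * j ∈ D then s + 2 * j + 1 else s + 2 * j) ∈ Ico s (s + l) \ D := by
    intro j hj
    have := mem_range.1 hj
    split_ifs with h
    · rw [mem_sdiff, mem_Ico]
      exact ⟨by omega, hcon _ h⟩
    · rw [mem_sdiff, mem_Ico]
      exact ⟨by omega, h⟩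
  have e2 : (range (m + 1)).card ≤ (Ico s (s + l) \ D).card := by
    apply card_le_card_of_injOn (fun j => if s + 2 * j ∈ D then s + 2 * j + 1 else s + 2 * j)
    · intro j hj
      exact e1 j hj
    · intro x _ y _ hxy
      simp only at hxy
      split_ifs at hxy <;> omega
  rw [card_range] at e2
  omega

/-- the bound for the exponential sum over the digits -/
noncomputable def gi (b L m t : ℕ) : ℝ :=
  if t = 0 ∨ t = b - 1 then 1 else (m + b / 2 * (1 / t + 1 / ((b - 1 - t : ℕ) : ℝ))) / ((L : ℝ) - m)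

theorem gi_nonneg (b L m : ℕ) (hmL : m < L) (t : ℕ) : 0 ≤ gi b L m t := by
  unfold gi
  split_ifs
  · norm_num
  · have : (m : ℝ) < L := by exact_mod_cast hmL
    apply div_nonneg (by positivity) (by linarith)

theorem sum_gi (b L m : ℕ) (hmL : m < L) (hLb : L ≤ b) (hmb : 2 * m < b) :
    ∑ t ∈ range b, gi b L m t ≤ b / ((L : ℝ) - m) * (2 * (m + 2 + Real.log b) + 2) := by
  have h1 : (m : ℝ) < L := by exact_mod_cast hmL
  have h2 : (L : ℝ) ≤ b := by exact_mod_cast hLb
  have hm0 : (0 : ℝ) ≤ m := Nat.cast_nonneg _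
  have hc1 : 1 ≤ b / ((L : ℝ) - m) := by
    rw [le_div_iff₀ (by linarith)]
    linarith
  calc ∑ t ∈ range b, gi b L m t ≤ ∑ t ∈ range b, b / ((L : ℝ) - m) * gg b m t := by
        apply sum_le_sum
        intro t _
        have h0 := gg_nonneg b m t hmb
        unfold gi gg at *
        split_ifs with h
        · linarith
        · rw [div_mul_div_comm]
          have hA : (0 : ℝ) ≤ m + b / 2 * (1 / t + 1 / ((b - 1 - t : ℕ) : ℝ)) := by positivity
          rw [div_le_div_iff₀ (by linarith) (mul_pos (by linarith) (by linarith))]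
          have h3 : (b : ℝ) - m ≤ b := by linarith
          have h4 : (0 : ℝ) ≤ (L : ℝ) - m := by linarith
          calc (m + b / 2 * (1 / t + 1 / ((b - 1 - t : ℕ) : ℝ))) * (((L : ℝ) - m) * (b - m)) ≤
              (m + b / 2 * (1 / t + 1 / ((b - 1 - t : ℕ) : ℝ))) * (((L : ℝ) - m) * b) := by
                gcongr
            _ = _ := by ring
    _ = b / ((L : ℝ) - m) * ∑ t ∈ range b, gg b m t := by rw [mul_sum]
    _ ≤ _ := by
        apply mul_le_mul_of_nonneg_left (sum_gg b m hmb) (by linarith)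

theorem IntD.dom {b L m : ℕ} {D : Finset ℕ} (h : IntD b L m D) (hmL : m < L) : Dom b (gi b L m) D := by
  have hcard := h.card
  obtain ⟨s, l, hl, hb, hD, hm⟩ := h
  intro t ht v hv hv1
  unfold gi
  split_ifs with h
  · exact ff_le_one _ _
  · push Not at h
    have hb0 : (0 : ℝ) < b := by exact_mod_cast (by omega : 0 < b)
    have ht1 : 1 ≤ t := Nat.pos_of_ne_zero h.1
    have ht2 : 1 ≤ b - 1 - t := by omega
    obtain ⟨u, hu⟩ : ∃ u, u = b - 1 - t := ⟨_, rfl⟩
    rw [← hu] at ht2 ⊢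
    have hut : (u : ℝ) + t + 1 = b := by
      have : u + t + 1 = b := by omega
      exact_mod_cast this
    have ht1r : (1 : ℝ) ≤ t := by exact_mod_cast ht1
    have hu1r : (1 : ℝ) ≤ u := by exact_mod_cast ht2
    set x : ℝ := (t + v) / b with hx
    have hxt : (t : ℝ) / b ≤ x := by
      rw [hx]
      apply div_le_div_of_nonneg_right _ hb0.le
      linarith
    have hxu : x ≤ 1 - u / b := by
      rw [hx, div_le_iff₀ hb0, sub_mul, div_mul_cancel₀ _ hb0.ne']
      linarith
    have hfull : ‖∑ t ∈ Ico s (s + l), ee (t * x)‖ ≤ b / 2 * (1 / t + 1 / u) := by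
      have hshift : ∑ t ∈ Ico s (s + l), ee (t * x) = ee (s * x) * ∑ t ∈ range l, ee (t * x) := by
        rw [sum_Ico_eq_sum_range, Nat.add_sub_cancel_left, mul_sum]
        apply sum_congr rfl
        intro j _
        rw [← ee_add]
        congr 1
        push_cast
        ring
      rw [hshift, norm_mul, norm_ee, one_mul]
      have hmin : 0 < min (t : ℝ) u := lt_min (by linarith) (by linarith)
      have h3 := geom l x (min (t : ℝ) u / b) (by positivity)
        (le_trans (div_le_div_of_nonneg_right (min_le_left _ _) hb0.le) hxt)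
        (hxu.trans (by
          have := div_le_div_of_nonneg_right (min_le_right (t : ℝ) u) hb0.le
          linarith))
      refine h3.trans ?_
      rcases le_total (t : ℝ) u with h4 | h4
      · rw [min_eq_left h4]
        have : (1 : ℝ) / (2 * (t / b)) = b / 2 * (1 / t) := by field_simp
        rw [this]
        apply mul_le_mul_of_nonneg_left _ (by positivity)
        have : (0 : ℝ) ≤ 1 / u := by positivity
        linarith
      · rw [min_eq_right h4]
        have : (1 : ℝ) / (2 * (u / b)) = b / 2 * (1 / u) := by field_simp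
        rw [this]
        apply mul_le_mul_of_nonneg_left _ (by positivity)
        have : (0 : ℝ) ≤ 1 / t := by positivity
        linarith
    have hsplit : ∑ t ∈ D, ee (t * x) = ∑ t ∈ Ico s (s + l), ee (t * x) - ∑ t ∈ Ico s (s + l) \ D, ee (t * x) := by
      rw [← sum_sdiff hD]
      ring
    have hnorm : ‖∑ t ∈ D, ee (t * x)‖ ≤ m + b / 2 * (1 / t + 1 / u) := by
      rw [hsplit]
      calc _ ≤ ‖∑ t ∈ Ico s (s + l), ee (t * x)‖ + ‖∑ t ∈ Ico s (s + l) \ D, ee (t * x)‖ := norm_sub_le _ _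
        _ ≤ b / 2 * (1 / t + 1 / u) + m := by
            apply add_le_add hfull
            calc ‖∑ t ∈ Ico s (s + l) \ D, ee (t * x)‖ ≤ ∑ t ∈ Ico s (s + l) \ D, ‖ee (t * x)‖ := norm_sum_le _ _
              _ = ((Ico s (s + l) \ D).card : ℝ) := by simp [norm_ee]
              _ ≤ m := by exact_mod_cast hm
        _ = _ := by ring
    have hcard' : (L : ℝ) - m ≤ D.card := by
      have : (L : ℝ) ≤ D.card + m := by exact_mod_cast hcard
      linarith
    have hpos : 0 < (L : ℝ) - m := by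
      have : (m : ℝ) < L := by exact_mod_cast hmL
      linarith
    unfold ff
    exact div_le_div₀ (by positivity) hnorm hpos hcard'

end Pool.Agent.T3H29.DI
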