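import Pool.Agent.T3H29.DG.Main
import Pool.Agent.T3H29.DI.SmallI

/-! Values divisible by the square of a medium prime, in thin sets of integers with restricted digits. -/

set_option autoImplicit false

open Finset Polynomial Filter

namespace Pool.Agent.T3H29.DI

open Pool.Agent.T3H29.DG
open Pool.Agent.W23.DC
open Pool.Agent.Y882
open Pool.Agent.Y882.PX
open Pool.Agent.Y882.KW
open Pool.Agent.Y882.SI
open Pool.Agent.Y882.MG

/-- the elements in a residue class -/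
def cls (b : ℕ) (D : ℕ → Finset ℕ) (k q : ℕ) (ν : ℤ) : Finset ℕ :=
  (SD b D k).filter (fun n : ℕ => ((q ^ 2 : ℕ) : ℤ) ∣ (n : ℤ) - ν)

theorem cls_le (b : ℕ) (hb : 0 < b) (D : ℕ → Finset ℕ) (k q : ℕ) (ν : ℤ) (hD : ∀ i < k, D i ⊆ range b)
    (j : ℕ) (hj : j ≤ k) (hjq : b ^ j ≤ q ^ 2) :
    (cls b D k q ν).card ≤ ∏ i ∈ range (k - j), (D (j + i)).card := by
  rw [← card_SD b hb (fun i => D (j + i)) (k - j) (fun i hi => hD (j + i) (by omega))]
  have hp : 0 < b ^ j := Nat.pow_pos hb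
  apply card_le_card_of_injOn (fun n => n / b ^ j)
  · intro n hn
    rw [mem_coe] at hn ⊢
    unfold cls SD at hn
    rw [mem_filter, mem_filter, mem_range] at hn
    unfold SD
    rw [mem_filter, mem_range]
    constructor
    · apply Nat.div_lt_of_lt_mul
      rw [← pow_add, Nat.add_sub_cancel' hj]
      exact hn.1.1
    · intro i hi
      rw [Nat.div_div_eq_div_mul, ← pow_add]
      exact hn.1.2 (j + i) (by omega)
  · intro n hn n' hn' hnn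
    rw [mem_coe] at hn hn'
    unfold cls at hn hn'
    rw [mem_filter] at hn hn'
    simp only at hnn
    have h1 : ((q ^ 2 : ℕ) : ℤ) ∣ (n : ℤ) - n' := by
      have := dvd_sub hn.2 hn'.2
      have e : (n : ℤ) - ν - ((n' : ℤ) - ν) = n - n' := by ring
      rwa [e] at this
    have h2 := Nat.div_add_mod n (b ^ j)
    have h3 := Nat.div_add_mod n' (b ^ j)
    have h4 := Nat.mod_lt n hp
    have h5 := Nat.mod_lt n' hp
    rw [hnn] at h2
    obtain ⟨u, hu⟩ : ∃ u, u = b ^ j * (n' / b ^ j) := ⟨_, rfl⟩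
    rw [← hu] at h2 h3
    clear hu
    generalize n % b ^ j = v at h2 h4
    generalize n' % b ^ j = v' at h3 h5
    have h6 : |(n : ℤ) - n'| < ((q ^ 2 : ℕ) : ℤ) := by
      rw [abs_lt]
      constructor
      · have : (n' : ℤ) < n + ((q ^ 2 : ℕ) : ℤ) := by exact_mod_cast (by omega : n' < n + q ^ 2)
        linarith
      · have : (n : ℤ) < n' + ((q ^ 2 : ℕ) : ℤ) := by exact_mod_cast (by omega : n < n' + q ^ 2)
        linarith
    have h7 := Int.eq_zero_of_abs_lt_dvd h1 h6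
    omega

theorem prod_low (b : ℕ) (hb : 1 ≤ b) (D : ℕ → Finset ℕ) (k : ℕ) (α : ℝ) (hα : 0 ≤ α)
    (hc : ∀ i < k, 1 ≤ i → (b : ℝ) ^ α ≤ (D i).card) (h0 : 1 ≤ (D 0).card) (j : ℕ) (hj : j ≤ k) :
    ((b : ℝ) ^ α) ^ j ≤ (b : ℝ) ^ α * ∏ i ∈ range j, ((D i).card : ℝ) := by
  have hbr : (1 : ℝ) ≤ b := by exact_mod_cast hb
  have hB : 1 ≤ (b : ℝ) ^ α := Real.one_le_rpow hbr hα
  induction j with
  | zero => simpa using hB
  | succ j ih =>
    rcases Nat.eq_zero_or_pos j with h | h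
    · subst h
      simp only [zero_add, range_one, prod_singleton, pow_one]
      have : (1 : ℝ) ≤ (D 0).card := by exact_mod_cast h0
      nlinarith
    · rw [pow_succ, prod_range_succ, ← mul_assoc]
      exact mul_le_mul (ih (by omega)) (hc j (by omega) h) (by positivity)
        (mul_nonneg (by positivity) (prod_nonneg fun _ _ => Nat.cast_nonneg _))

theorem cls_count (b : ℕ) (hb : 2 ≤ b) (D : ℕ → Finset ℕ) (k q : ℕ) (hq : 1 ≤ q) (ν : ℤ)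
    (hD : ∀ i < k, D i ⊆ range b) (α : ℝ) (hα : 0 ≤ α) (hα1 : α ≤ 1)
    (hc : ∀ i < k, 1 ≤ i → (b : ℝ) ^ α ≤ (D i).card) (h0 : 1 ≤ (D 0).card) :
    ((cls b D k q ν).card : ℝ) ≤ (SD b D k).card * (b : ℝ) ^ 2 * (q : ℝ) ^ (-(2 * α)) + 1 := by
  have hb0 : 0 < b := by omega
  have hbr : (2 : ℝ) ≤ b := by exact_mod_cast hb
  have hbr0 : (0 : ℝ) < b := by linarith
  have hqr : (1 : ℝ) ≤ q := by exact_mod_cast hq
  have hqr0 : (0 : ℝ) < q := by linarith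
  set j := Nat.log b (q ^ 2) with hjdef
  have hj1 : b ^ j ≤ q ^ 2 := Nat.pow_log_le_self b (by positivity)
  have hj2 : q ^ 2 < b ^ (j + 1) := Nat.lt_pow_succ_log_self (by omega) _
  by_cases hjk : k ≤ j
  · have h1 := cls_le b hb0 D k q ν hD k le_rfl ((Nat.pow_le_pow_right hb0 hjk).trans hj1)
    rw [Nat.sub_self, range_zero, prod_empty] at h1
    have h2 : ((cls b D k q ν).card : ℝ) ≤ 1 := by exact_mod_cast h1
    have h3 : (0 : ℝ) ≤ (SD b D k).card * (b : ℝ) ^ 2 * (q : ℝ) ^ (-(2 * α)) := by positivity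
    linarith
  · push Not at hjk
    have h1 := cls_le b hb0 D k q ν hD j hjk.le hj1
    have h1r : ((cls b D k q ν).card : ℝ) ≤ ∏ i ∈ range (k - j), ((D (j + i)).card : ℝ) := by exact_mod_cast h1
    have h2 : ((SD b D k).card : ℝ) = (∏ i ∈ range j, ((D i).card : ℝ)) * ∏ i ∈ range (k - j), ((D (j + i)).card : ℝ) := by
      rw [card_SD b hb0 D k hD]
      push_cast
      rw [← prod_range_add]
      congr 2
      omega
    have h3 := prod_low b (by omega) D k α hα hc h0 j hjk.le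
    set A : ℝ := (b : ℝ) ^ α with hA
    have hA1 : 1 ≤ A := Real.one_le_rpow (by linarith) hα
    have hAb : A ≤ b := by
      calc A ≤ (b : ℝ) ^ (1 : ℝ) := Real.rpow_le_rpow_of_exponent_le (by linarith) hα1
        _ = b := Real.rpow_one _
    have h4 : (q : ℝ) ^ (2 * α) ≤ A ^ (j + 1) := by
      have e1 : (q : ℝ) ^ (2 * α) = ((q : ℝ) ^ 2) ^ α := by
        rw [← Real.rpow_natCast, ← Real.rpow_mul hqr0.le]
        norm_num
      have e2 : A ^ (j + 1) = ((b : ℝ) ^ (j + 1)) ^ α := by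
        rw [hA, ← Real.rpow_natCast, ← Real.rpow_natCast, ← Real.rpow_mul hbr0.le, ← Real.rpow_mul hbr0.le]
        congr 1
        ring
      rw [e1, e2]
      apply Real.rpow_le_rpow (by positivity) _ hα
      exact_mod_cast hj2.le
    have h5 : (q : ℝ) ^ (2 * α) ≤ A ^ 2 * ∏ i ∈ range j, ((D i).card : ℝ) := by
      calc (q : ℝ) ^ (2 * α) ≤ A ^ j * A := by rw [← pow_succ]; exact h4
        _ ≤ (A * ∏ i ∈ range j, ((D i).card : ℝ)) * A := mul_le_mul_of_nonneg_right h3 (by linarith)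
        _ = _ := by ring
    have hP0 : (0 : ℝ) ≤ ∏ i ∈ range (k - j), ((D (j + i)).card : ℝ) := prod_nonneg fun _ _ => Nat.cast_nonneg _
    have hP1 : (0 : ℝ) ≤ ∏ i ∈ range j, ((D i).card : ℝ) := prod_nonneg fun _ _ => Nat.cast_nonneg _
    have hq2 : 0 < (q : ℝ) ^ (2 * α) := by positivity
    have h6 : ((cls b D k q ν).card : ℝ) * (q : ℝ) ^ (2 * α) ≤ (SD b D k).card * (b : ℝ) ^ 2 := by
      calc ((cls b D k q ν).card : ℝ) * (q : ℝ) ^ (2 * α) ≤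
          (∏ i ∈ range (k - j), ((D (j + i)).card : ℝ)) * (A ^ 2 * ∏ i ∈ range j, ((D i).card : ℝ)) :=
            mul_le_mul h1r h5 hq2.le hP0
        _ = ((SD b D k).card : ℝ) * A ^ 2 := by rw [h2]; ring
        _ ≤ _ := by gcongr
    have h7 : ((cls b D k q ν).card : ℝ) ≤ (SD b D k).card * (b : ℝ) ^ 2 * (q : ℝ) ^ (-(2 * α)) := by
      rw [Real.rpow_neg hqr0.le, ← div_eq_mul_inv, le_div_iff₀ hq2]
      exact h6
    linarith

open Classical in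
/-- the elements at which the value is divisible by the square of a medium prime -/
noncomputable def badI (a : ℤ) (b : ℕ) (D : ℕ → Finset ℕ) (k Y : ℕ) (ζ υ : ℝ) : Finset ℕ :=
  (SD b D k).filter (fun n : ℕ => ∃ q ∈ pr Y ζ υ, ((q ^ 2 : ℕ) : ℤ) ∣ (QF a).eval (n : ℤ))

open Classical in
theorem sq_cls (a : ℤ) (ha : a ≠ 0) (b : ℕ) (D : ℕ → Finset ℕ) (k q : ℕ) (hq : q.Prime) (hqa : a.natAbs < q)
    (h2 : 2 < q) : ∃ ν : ℤ, (SD b D k).filter (fun n : ℕ => ((q ^ 2 : ℕ) : ℤ) ∣ (QF a).eval (n : ℤ)) ⊆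
      cls b D k q ν ∪ cls b D k q (-ν) := by
  rcases ((SD b D k).filter (fun n : ℕ => ((q ^ 2 : ℕ) : ℤ) ∣ (QF a).eval (n : ℤ))).eq_empty_or_nonempty with
    h | ⟨j0, hj0⟩
  · exact ⟨0, by rw [h]; exact empty_subset _⟩
  · refine ⟨j0, ?_⟩
    rw [mem_filter, QF_eval] at hj0
    intro n hn
    rw [mem_filter, QF_eval] at hn
    have hqp : Prime (q : ℤ) := Nat.prime_iff_prime_int.1 hq
    have h3 : ((q ^ 2 : ℕ) : ℤ) ∣ ((n : ℤ) - j0) * ((n : ℤ) + j0) := by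
      have := dvd_sub hn.2 hj0.2
      have e : (n : ℤ) ^ 2 + a - ((j0 : ℤ) ^ 2 + a) = (n - j0) * (n + j0) := by ring
      rwa [e] at this
    have h4 : ¬ (q : ℤ) ∣ (j0 : ℤ) := by
      intro h5
      have h6 : (q : ℤ) ∣ (j0 : ℤ) ^ 2 + a := (Dvd.intro_left ((q : ℤ)) (by push_cast; ring)).trans hj0.2
      have h7 : (q : ℤ) ∣ a := (Int.dvd_add_right (dvd_pow h5 (by norm_num))).1 h6
      have h8 := Int.natAbs_dvd_natAbs.2 h7
      rw [Int.natAbs_natCast] at h8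
      have h9 := Nat.le_of_dvd (Int.natAbs_pos.2 ha) h8
      omega
    have h5 : ¬ ((q : ℤ) ∣ (n : ℤ) - j0 ∧ (q : ℤ) ∣ (n : ℤ) + j0) := by
      rintro ⟨u1, u2⟩
      have u3 : (q : ℤ) ∣ 2 * j0 := by
        have := dvd_sub u2 u1
        have e : (n : ℤ) + j0 - (n - j0) = 2 * j0 := by ring
        rwa [e] at this
      rcases hqp.dvd_or_dvd u3 with u4 | u4
      · have u5 : q ∣ 2 := by exact_mod_cast u4
        have := Nat.le_of_dvd (by norm_num) u5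
        omega
      · exact h4 u4
    rw [mem_union]
    unfold cls
    rw [mem_filter, mem_filter]
    push_cast at h3 ⊢
    by_cases h6 : (q : ℤ) ∣ (n : ℤ) - j0
    · left
      have h7 : ¬ (q : ℤ) ∣ (n : ℤ) + j0 := fun h => h5 ⟨h6, h⟩
      refine ⟨hn.1, ?_⟩
      have h8 : IsCoprime ((q : ℤ) ^ 2) ((n : ℤ) + j0) :=
        IsCoprime.pow_left ((Prime.coprime_iff_not_dvd hqp).2 h7)
      exact h8.dvd_of_dvd_mul_right h3
    · right
      refine ⟨hn.1, ?_⟩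
      have h8 : IsCoprime ((q : ℤ) ^ 2) ((n : ℤ) - j0) :=
        IsCoprime.pow_left ((Prime.coprime_iff_not_dvd hqp).2 h6)
      rw [sub_neg_eq_add]
      exact h8.dvd_of_dvd_mul_left h3

open Classical in
theorem bad_leI (a : ℤ) (ha0 : a ≠ 0) (b : ℕ) (hb : 2 ≤ b) (D : ℕ → Finset ℕ) (k : ℕ)
    (hD : ∀ i < k, D i ⊆ range b) (α : ℝ) (hα : 0 ≤ α) (hα1 : α ≤ 1)
    (hc : ∀ i < k, 1 ≤ i → (b : ℝ) ^ α ≤ (D i).card) (h0 : 1 ≤ (D 0).card) (Y : ℕ) (ζ υ : ℝ) (hY : 2 ≤ Y)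
    (hYζ : (a.natAbs : ℝ) + 4 ≤ (Y : ℝ) ^ ζ) (κ Cκ : ℝ) (hκ : 0 ≤ κ) (hακ : 2 * α = 1 + 2 * κ)
    (hCκ : ∀ F : Finset ℕ, ∑ q ∈ F, (q : ℝ) ^ (-(1 + κ)) ≤ Cκ) :
    ((badI a b D k Y ζ υ).card : ℝ) ≤ 2 * ((SD b D k).card * (b : ℝ) ^ 2 * Cκ * (Y : ℝ) ^ (-(ζ * κ)) + (Y : ℝ) ^ υ) := by
  have hpr : ∀ q ∈ pr Y ζ υ, q.Prime ∧ (Y : ℝ) ^ ζ ≤ q ∧ (q : ℝ) ≤ (Y : ℝ) ^ υ := by
    intro q hq
    obtain ⟨u1, u2, u3⟩ := pr_mem Y q ζ υ hY hq
    exact ⟨u1, u2, u3.le⟩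
  have hYr : (0 : ℝ) < Y := by exact_mod_cast (by omega : 0 < Y)
  have h4 : (4 : ℝ) ≤ (Y : ℝ) ^ ζ := by
    have : (0 : ℝ) ≤ a.natAbs := Nat.cast_nonneg _
    linarith
  have hcard : ((pr Y ζ υ).card : ℝ) ≤ (Y : ℝ) ^ υ := by
    apply card_lt _ _ (by positivity)
    intro q hq
    exact ⟨(hpr q hq).1.one_le, (hpr q hq).2.2⟩
  set X : ℝ := (SD b D k).card * (b : ℝ) ^ 2 with hX
  have hX0 : 0 ≤ X := by positivity
  have hone : ∀ q ∈ pr Y ζ υ, (((SD b D k).filter (fun n : ℕ => ((q ^ 2 : ℕ) : ℤ) ∣ (QF a).eval (n : ℤ))).card : ℝ) ≤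
      2 * (X * (q : ℝ) ^ (-(2 * α)) + 1) := by
    intro q hq
    obtain ⟨u1, u2, u3⟩ := hpr q hq
    have u4 : (a.natAbs : ℝ) + 4 ≤ q := hYζ.trans u2
    have u5 : a.natAbs + 4 ≤ q := by exact_mod_cast u4
    obtain ⟨ν, hν⟩ := sq_cls a ha0 b D k q u1 (by omega) (by omega)
    have h5 := (card_le_card hν).trans (card_union_le _ _)
    have h6 := cls_count b hb D k q u1.one_le ν hD α hα hα1 hc h0
    have h7 := cls_count b hb D k q u1.one_le (-ν) hD α hα hα1 hc h0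
    have h8 : (((SD b D k).filter (fun n : ℕ => ((q ^ 2 : ℕ) : ℤ) ∣ (QF a).eval (n : ℤ))).card : ℝ) ≤
        (cls b D k q ν).card + (cls b D k q (-ν)).card := by exact_mod_cast h5
    linarith
  have hsub : badI a b D k Y ζ υ ⊆ (pr Y ζ υ).biUnion (fun q => (SD b D k).filter
      (fun n : ℕ => ((q ^ 2 : ℕ) : ℤ) ∣ (QF a).eval (n : ℤ))) := by
    intro n hn
    unfold badI at hn
    rw [mem_filter] at hn
    obtain ⟨h1, q, hq, hqd⟩ := hn
    rw [mem_biUnion]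
    exact ⟨q, hq, mem_filter.2 ⟨h1, hqd⟩⟩
  have hsum : ∑ q ∈ pr Y ζ υ, (q : ℝ) ^ (-(2 * α)) ≤ Cκ * (Y : ℝ) ^ (-(ζ * κ)) := by
    calc ∑ q ∈ pr Y ζ υ, (q : ℝ) ^ (-(2 * α)) ≤ ∑ q ∈ pr Y ζ υ, (q : ℝ) ^ (-(1 + κ)) * (Y : ℝ) ^ (-(ζ * κ)) := by
          apply sum_le_sum
          intro q hq
          obtain ⟨u1, u2, u3⟩ := hpr q hq
          have hq0 : (0 : ℝ) < q := by exact_mod_cast u1.pos
          have e1 : (q : ℝ) ^ (-(2 * α)) = (q : ℝ) ^ (-(1 + κ)) * (q : ℝ) ^ (-κ) := by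
            rw [← Real.rpow_add hq0]
            congr 1
            linarith
          rw [e1]
          apply mul_le_mul_of_nonneg_left _ (by positivity)
          have e2 : (Y : ℝ) ^ (-(ζ * κ)) = ((Y : ℝ) ^ ζ) ^ (-κ) := by
            rw [← Real.rpow_mul hYr.le]
            congr 1
            ring
          rw [e2]
          exact Real.rpow_le_rpow_of_nonpos (by positivity) u2 (by linarith)
      _ = (∑ q ∈ pr Y ζ υ, (q : ℝ) ^ (-(1 + κ))) * (Y : ℝ) ^ (-(ζ * κ)) := by rw [sum_mul]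
      _ ≤ _ := mul_le_mul_of_nonneg_right (hCκ _) (by positivity)
  calc ((badI a b D k Y ζ υ).card : ℝ) ≤ ∑ q ∈ pr Y ζ υ, (((SD b D k).filter
        (fun n : ℕ => ((q ^ 2 : ℕ) : ℤ) ∣ (QF a).eval (n : ℤ))).card : ℝ) := by
        exact_mod_cast (card_le_card hsub).trans card_biUnion_le
    _ ≤ ∑ q ∈ pr Y ζ υ, 2 * (X * (q : ℝ) ^ (-(2 * α)) + 1) := sum_le_sum hone
    _ = 2 * (X * (∑ q ∈ pr Y ζ υ, (q : ℝ) ^ (-(2 * α))) + (pr Y ζ υ).card) := by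
        rw [← mul_sum, sum_add_distrib, ← mul_sum, sum_const, nsmul_eq_mul, mul_one]
    _ ≤ 2 * (X * (Cκ * (Y : ℝ) ^ (-(ζ * κ))) + (Y : ℝ) ^ υ) := by gcongr
    _ = _ := by ring

theorem zeta_bound (κ : ℝ) (hκ : 0 < κ) : ∃ C : ℝ, 0 < C ∧ ∀ F : Finset ℕ, ∑ q ∈ F, (q : ℝ) ^ (-(1 + κ)) ≤ C := by
  have hs : Summable (fun q : ℕ => (q : ℝ) ^ (-(1 + κ))) := Real.summable_nat_rpow.2 (by linarith)
  refine ⟨(∑' q : ℕ, (q : ℝ) ^ (-(1 + κ))) + 1, ?_, fun F => ?_⟩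
  · have : 0 ≤ ∑' q : ℕ, (q : ℝ) ^ (-(1 + κ)) := tsum_nonneg fun q => by positivity
    linarith
  · have := hs.sum_le_tsum F (fun q _ => by positivity)
    linarith

end Pool.Agent.T3H29.DI
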